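import Pool.Agent.Helper76.TC.Goals

/-! Packet TC-PI (MP_ccd65d_gt). -/

set_option autoImplicit false

open Set

namespace Pool.Agent.Helper82.TC.PI

open Pool.Agent.Helper76.TC
open Pool.Agent.Helper50.CT (rv Cov Sh)

theorem t : S_PI := by
  intro n X T _ _ _ π hc x y E s D' M hs hE hxy hME hF hcl k
  classical
  refine AddSubgroup.closure_induction (p := fun k _ => ∃ i : ℕ, 1 ≤ i ∧
    i • k ∈ AddSubgroup.closure (Sh n x s)) ?_ ?_ ?_ ?_ (hcl k)
  · intro k hk
    have hk1 : dist y (k +ᵥ y) ≤ E := hk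
    obtain ⟨β, hβ⟩ := hc.lift x y
    have hβ' : dist x (β +ᵥ y) ≤ D' := hβ.le.trans hxy
    -- the distance of `y` to `(j • k) +ᵥ y`
    have h1 : ∀ j : ℕ, dist y ((j • k) +ᵥ y) ≤ j * E := by
      intro j
      induction j with
      | zero => simp
      | succ j ih =>
        have e1 : ((j + 1) • k) +ᵥ y = (j • k) +ᵥ (k +ᵥ y) := by rw [succ_nsmul, add_vadd]
        have h2 : dist ((j • k) +ᵥ y) ((j • k) +ᵥ (k +ᵥ y)) ≤ E := by rw [hc.isom]; exact hk1
        rw [e1]
        push_cast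
        linarith [dist_triangle y ((j • k) +ᵥ y) ((j • k) +ᵥ (k +ᵥ y))]
    have h2 : ∀ j : ℕ, j ≤ M → dist x ((j • k) +ᵥ x) ≤ 3 * D' := by
      intro j hj
      have e1 : dist (β +ᵥ y) ((j • k) +ᵥ (β +ᵥ y)) = dist y ((j • k) +ᵥ y) := by
        rw [vadd_vadd, add_comm, ← vadd_vadd, hc.isom]
      have e2 : dist ((j • k) +ᵥ (β +ᵥ y)) ((j • k) +ᵥ x) ≤ D' := by
        rw [hc.isom, dist_comm]; exact hβ'
      have e3 : (j : ℝ) * E ≤ D' :=
        (mul_le_mul_of_nonneg_right (by exact_mod_cast hj) hE).trans hME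
      have e4 := h1 j
      have e5 := dist_triangle x (β +ᵥ y) ((j • k) +ᵥ (β +ᵥ y))
      have e6 := dist_triangle x ((j • k) +ᵥ (β +ᵥ y)) ((j • k) +ᵥ x)
      linarith
    by_contra hno
    push Not at hno
    have h3 : ∀ i : ℕ, 1 ≤ i → s < dist x ((i • k) +ᵥ x) := by
      intro i hi
      by_contra hle
      exact hno i hi (AddSubgroup.subset_closure (not_lt.1 hle))
    have h4 : ∀ j j' : ℕ, j < j' → s < dist ((j • k) +ᵥ x) ((j' • k) +ᵥ x) := by
      intro j j' hjj
      obtain ⟨i, rfl⟩ := Nat.exists_eq_add_of_lt hjj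
      have e1 : ((j + i + 1) • k) +ᵥ x = (j • k) +ᵥ (((i + 1) • k) +ᵥ x) := by
        rw [vadd_vadd, ← add_nsmul, add_assoc]
      rw [e1, hc.isom]
      exact h3 _ (by omega)
    have h5 : ∀ j j' : ℕ, j ≠ j' → s < dist ((j • k) +ᵥ x) ((j' • k) +ᵥ x) := by
      intro j j' hne
      rcases lt_or_gt_of_ne hne with h | h
      · exact h4 j j' h
      · rw [dist_comm]; exact h4 j' j h
    have h6 := hF ((Finset.range (M + 1)).image fun j => (j • k) +ᵥ x) (by
      intro z hz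
      obtain ⟨j, hj, rfl⟩ := Finset.mem_image.1 hz
      exact h2 j (by have := Finset.mem_range.1 hj; omega)) (by
      intro z hz w hw hzw
      obtain ⟨j, hj, rfl⟩ := Finset.mem_image.1 hz
      obtain ⟨j', hj', rfl⟩ := Finset.mem_image.1 hw
      exact h5 j j' fun h => hzw (by rw [h]))
    rw [Finset.card_image_of_injective _ (fun j j' hjj => by
      by_contra hne
      have := h5 j j' hne
      rw [show (j • k) +ᵥ x = (j' • k) +ᵥ x from hjj, dist_self] at this
      exact absurd hs (not_lt.2 this.le)), Finset.card_range] at h6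
    omega
  · exact ⟨1, le_rfl, by rw [smul_zero]; exact zero_mem _⟩
  · rintro a b - - ⟨i, hi, ha⟩ ⟨j, hj, hb⟩
    refine ⟨i * j, Nat.mul_pos hi hj, ?_⟩
    rw [smul_add]
    refine add_mem ?_ ?_
    · rw [mul_comm, mul_smul]
      exact AddSubgroup.nsmul_mem _ ha j
    · rw [mul_smul]
      exact AddSubgroup.nsmul_mem _ hb i
  · rintro a - ⟨i, hi, ha⟩
    exact ⟨i, hi, by rw [smul_neg]; exact neg_mem ha⟩

end Pool.Agent.Helper82.TC.PI
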